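import Pool.Agent.W312.TP.Stm
import Pool.Agent.H673R2.TsTree

/-! Project TP (helper312), part PGT: built graphs are path graphs. -/

set_option autoImplicit false

namespace Pool.Agent.W557.TP

open Pool.Agent.W312.TP Pool.Agent.H673R2.Ts

/-- Adjacency of a parent function. -/
def PA (π : ℕ → ℕ) (x y : ℕ) : Prop := (x ≠ 0 ∧ y = π x) ∨ (y ≠ 0 ∧ x = π y)

/-- Paths with their sets of vertices. -/
inductive PP (R : ℕ → ℕ → Prop) : ℕ → ℕ → Set ℕ → Prop
  | nil (a : ℕ) : PP R a a {a}
  | cons {a b : ℕ} {S : Set ℕ} (a' : ℕ) (h : PP R a b S) (ha : R a' a) (hn : a' ∉ S) :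
      PP R a' b (insert a' S)
  | conc {a b : ℕ} {S : Set ℕ} (b' : ℕ) (h : PP R a b S) (hb : R b b') (hn : b' ∉ S) :
      PP R a b' (insert b' S)

theorem PP.mem {R : ℕ → ℕ → Prop} {a b : ℕ} {S : Set ℕ} (h : PP R a b S) : a ∈ S ∧ b ∈ S := by
  induction h with
  | nil a => exact ⟨rfl, rfl⟩
  | cons a' h ha hn ih => exact ⟨Set.mem_insert _ _, Set.mem_insert_of_mem _ ih.2⟩
  | conc b' h hb hn ih => exact ⟨Set.mem_insert_of_mem _ ih.1, Set.mem_insert _ _⟩

theorem PP.mono {R R' : ℕ → ℕ → Prop} {N a b : ℕ} {S : Set ℕ}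
    (hR : ∀ x y, x < N → y < N → R x y → R' x y) (h : PP R a b S) :
    (∀ x ∈ S, x < N) → PP R' a b S := by
  induction h with
  | nil a => exact fun _ => PP.nil a
  | cons a' h ha hn ih =>
    intro hS
    have hS' := fun x hx => hS x (Set.mem_insert_of_mem _ hx)
    exact PP.cons a' (ih hS') (hR _ _ (hS _ (Set.mem_insert _ _)) (hS' _ h.mem.1) ha) hn
  | conc b' h hb hn ih =>
    intro hS
    have hS' := fun x hx => hS x (Set.mem_insert_of_mem _ hx)
    exact PP.conc b' (ih hS') (hR _ _ (hS' _ h.mem.2) (hS _ (Set.mem_insert _ _)) hb) hn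

theorem PP.path {R : ℕ → ℕ → Prop} {N : ℕ} {H : SimpleGraph (Fin N)}
    (hH : ∀ x y : Fin N, R x y → H.Adj x y) {a b : ℕ} {S : Set ℕ} (h : PP R a b S) :
    (∀ x ∈ S, x < N) → ∀ a' b' : Fin N, (a' : ℕ) = a → (b' : ℕ) = b →
      ∃ P : H.Path a' b', ∀ x : Fin N, x ∈ P.1.support ↔ (x : ℕ) ∈ S := by
  induction h with
  | nil a =>
    intro _ a' b' h1 h2
    have h3 : a' = b' := Fin.ext (h1.trans h2.symm)
    subst h3
    refine ⟨SimpleGraph.Path.nil, fun x => ?_⟩
    rw [show (SimpleGraph.Path.nil : H.Path a' a').1 = SimpleGraph.Walk.nil from rfl,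
      SimpleGraph.Walk.support_nil, List.mem_singleton, Set.mem_singleton_iff, Fin.ext_iff, h1]
  | @cons a b S c h ha hn ih =>
    intro hS a' b' h1 h2
    have hS' := fun x hx => hS x (Set.mem_insert_of_mem _ hx)
    obtain ⟨P, hP⟩ := ih hS' ⟨a, hS' _ h.mem.1⟩ b' rfl h2
    have hadj : H.Adj a' ⟨a, hS' _ h.mem.1⟩ := hH _ _ (by rw [h1]; exact ha)
    refine ⟨⟨SimpleGraph.Walk.cons hadj P.1, ?_⟩, fun x => ?_⟩
    · rw [SimpleGraph.Walk.cons_isPath_iff]
      exact ⟨P.2, fun hm => hn (by rw [← h1]; exact (hP a').1 hm)⟩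
    · rw [SimpleGraph.Walk.support_cons, List.mem_cons, hP x, Set.mem_insert_iff, Fin.ext_iff, h1]
  | @conc a b S c h hb hn ih =>
    intro hS a' b' h1 h2
    have hS' := fun x hx => hS x (Set.mem_insert_of_mem _ hx)
    obtain ⟨P, hP⟩ := ih hS' a' ⟨b, hS' _ h.mem.2⟩ h1 rfl
    have hadj : H.Adj ⟨b, hS' _ h.mem.2⟩ b' := hH _ _ (by rw [h2]; exact hb)
    refine ⟨⟨P.1.concat hadj, ?_⟩, fun x => ?_⟩
    · exact P.2.concat (fun hm => hn (by rw [← h2]; exact (hP b').1 hm)) hadj
    · rw [SimpleGraph.Walk.support_concat, List.mem_append,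
        List.mem_singleton, hP x, Set.mem_insert_iff, Fin.ext_iff, h2, or_comm]

theorem main {n N : ℕ} {E : Set (ℕ × ℕ)} {e : ℕ → Bool → ℕ} (h : Built n N E e) :
    0 < N ∧ ∃ (π : ℕ → ℕ) (S : ℕ → Set ℕ), (∀ x, 0 < x → x < N → π x < x) ∧
      (∀ v < n, PP (PA π) (e v false) (e v true) (S v) ∧ ∀ x ∈ S v, x < N) ∧
      (∀ z ∈ E, z.1 < z.2 ∧ z.2 < n) ∧
      (∀ u v, u < v → v < n → ((u, v) ∈ E ↔ ∃ x, x ∈ S u ∧ x ∈ S v)) := by
  classical
  induction h with
  | root k =>
    refine ⟨one_pos, fun _ => 0, fun _ => {0}, fun x hx _ => hx, fun v _ => ⟨PP.nil 0, ?_⟩,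
      fun z hz => hz, fun u v huv hv => ⟨fun _ => ⟨0, rfl, rfl⟩, fun _ => ⟨huv, hv⟩⟩⟩
    intro x hx
    rw [Set.mem_singleton_iff.1 hx]
    exact one_pos
  | @op n N E e h ν A m hν hA hd ih =>
    obtain ⟨hN, π, S, hπ, hS, hE, hI⟩ := ih
    have hmn : ∀ v, v ∈ A.map Prod.fst → v < n := by
      intro v hv
      obtain ⟨z, hz, rfl⟩ := List.mem_map.1 hv
      exact (hA z hz).1
    have hνS : ∀ v, v ∈ A.map Prod.fst → ν ∈ S v := by
      intro v hv
      obtain ⟨⟨v', b⟩, hz, rfl⟩ := List.mem_map.1 hv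
      have h1 := hA _ hz
      have h2 := (hS v' h1.1).1.mem
      cases b
      · rw [← h1.2]; exact h2.1
      · rw [← h1.2]; exact h2.2
    have hNS : ∀ v < n, N ∉ S v := fun v hv hm => lt_irrefl _ ((hS v hv).2 _ hm)
    let π' : ℕ → ℕ := fun x => if x = N then ν else π x
    let S' : ℕ → Set ℕ := fun v =>
      if n ≤ v then {N} else if v ∈ A.map Prod.fst then insert N (S v) else S v
    have hS1 : ∀ v, n ≤ v → S' v = {N} := fun v hv => if_pos hv
    have hS2 : ∀ v, v ∈ A.map Prod.fst → S' v = insert N (S v) := by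
      intro v hv
      have h1 := hmn v hv
      show (if n ≤ v then _ else _) = _
      rw [if_neg (by omega), if_pos hv]
    have hS3 : ∀ v, v < n → v ∉ A.map Prod.fst → S' v = S v := by
      intro v hv hv'
      show (if n ≤ v then _ else _) = _
      rw [if_neg (by omega), if_neg hv']
    have hSN : ∀ v, N ∈ S' v ∨ n ≤ v → (n ≤ v ∨ v ∈ A.map Prod.fst) := by
      intro v hv
      by_contra hc
      rw [not_or] at hc
      rcases hv with hv | hv
      · rw [hS3 v (by omega) hc.2] at hv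
        exact hNS v (by omega) hv
      · exact hc.1 hv
    have hR : ∀ x y, x < N → y < N → PA π x y → PA π' x y := by
      intro x y hx hy hxy
      rcases hxy with ⟨h1, h2⟩ | ⟨h1, h2⟩
      · refine Or.inl ⟨h1, ?_⟩
        show y = if x = N then ν else π x
        rw [if_neg (by omega)]
        exact h2
      · refine Or.inr ⟨h1, ?_⟩
        show x = if y = N then ν else π y
        rw [if_neg (by omega)]
        exact h2
    have hNν : PA π' N ν := Or.inl ⟨by omega, (if_pos rfl).symm⟩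
    have hνN : PA π' ν N := Or.inr ⟨by omega, (if_pos rfl).symm⟩
    have huniq : ∀ v b b', (v, b) ∈ A → (v, b') ∈ A → b = b' := by
      intro v b b' h1 h2
      have := List.inj_on_of_nodup_map hd h1 h2 rfl
      exact congrArg Prod.snd this
    refine ⟨by omega, π', S', ?_, ?_, ?_, ?_⟩
    · intro x hx hxN
      show (if x = N then ν else π x) < x
      by_cases hxN' : x = N
      · rw [if_pos hxN', hxN']; exact hν
      · rw [if_neg hxN']; exact hπ x hx (by omega)
    · intro v hv
      by_cases hvn : n ≤ v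
      · rw [hS1 v hvn]
        dsimp only
        rw [if_pos (Or.inr hvn), if_pos (Or.inr hvn)]
        refine ⟨PP.nil N, fun x hx => ?_⟩
        rw [Set.mem_singleton_iff.1 hx]
        omega
      · have hvn' : v < n := by omega
        by_cases hvA : v ∈ A.map Prod.fst
        · rw [hS2 v hvA]
          have hold := (hS v hvn').1.mono hR (hS v hvn').2
          refine ⟨?_, ?_⟩
          · obtain ⟨⟨v', b⟩, hz, hv'⟩ := List.mem_map.1 hvA
            have hv'' : v' = v := hv'
            subst hv''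
            have h1 := (hA _ hz).2
            dsimp only at h1 ⊢
            cases b
            · have h2 : (v', true) ∉ A := fun h3 => by simpa using huniq _ _ _ hz h3
              rw [if_pos (Or.inl hz), if_neg (by rintro (h3 | h3); exacts [h2 h3, hvn h3])]
              rw [h1] at hold
              exact PP.cons N hold hNν (hNS _ hvn')
            · have h2 : (v', false) ∉ A := fun h3 => by simpa using huniq _ _ _ hz h3
              rw [if_pos (Or.inl hz), if_neg (by rintro (h3 | h3); exacts [h2 h3, hvn h3])]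
              rw [h1] at hold
              exact PP.conc N hold hνN (hNS _ hvn')
          · intro x hx
            rcases Set.mem_insert_iff.1 hx with rfl | hx
            · omega
            · have := (hS v hvn').2 x hx
              omega
        · rw [hS3 v hvn' hvA]
          have hne : ∀ b, ¬ ((v, b) ∈ A ∨ n ≤ v) := by
            rintro b (h1 | h1)
            · exact hvA (List.mem_map.2 ⟨_, h1, rfl⟩)
            · exact hvn h1
          dsimp only
          rw [if_neg (hne _), if_neg (hne _)]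
          exact ⟨(hS v hvn').1.mono hR (hS v hvn').2, fun x hx => by
            have := (hS v hvn').2 x hx
            omega⟩
    · rintro z (hz | ⟨h1, h2, h3 | h3⟩)
      · have := hE z hz
        exact ⟨this.1, by omega⟩
      · have := hmn _ h3
        exact ⟨by omega, h2⟩
      · exact ⟨h3.2, h2⟩
    · intro u v huv hv
      by_cases hvn : n ≤ v
      · rw [hS1 v hvn]
        constructor
        · rintro (hz | ⟨-, -, h3 | h3⟩)
          · have := (hE _ hz).2
            dsimp only at this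
            omega
          · exact ⟨N, by rw [hS2 u h3]; exact Set.mem_insert _ _, rfl⟩
          · exact ⟨N, by rw [hS1 u h3.1]; rfl, rfl⟩
        · rintro ⟨x, hx, hx'⟩
          rw [Set.mem_singleton_iff.1 hx'] at hx
          rcases hSN u (Or.inl hx) with h1 | h1
          · exact Or.inr ⟨hvn, hv, Or.inr ⟨h1, huv⟩⟩
          · exact Or.inr ⟨hvn, hv, Or.inl h1⟩
      · have hvn' : v < n := by omega
        have hsub : ∀ w < n, S w ⊆ S' w := by
          intro w hw
          by_cases hwA : w ∈ A.map Prod.fst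
          · rw [hS2 w hwA]; exact Set.subset_insert _ _
          · rw [hS3 w hw hwA]
        have hsup : ∀ w < n, ∀ x, x ∈ S' w → x ∈ S w ∨ (x = N ∧ w ∈ A.map Prod.fst) := by
          intro w hw x hx
          by_cases hwA : w ∈ A.map Prod.fst
          · rw [hS2 w hwA] at hx
            rcases Set.mem_insert_iff.1 hx with hx | hx
            · exact Or.inr ⟨hx, hwA⟩
            · exact Or.inl hx
          · rw [hS3 w hw hwA] at hx
            exact Or.inl hx
        have hun : u < n := by omega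
        constructor
        · rintro (hz | ⟨h1, -⟩)
          · obtain ⟨x, hx, hx'⟩ := (hI u v huv hvn').1 hz
            exact ⟨x, hsub u hun hx, hsub v hvn' hx'⟩
          · exact absurd h1 hvn
        · rintro ⟨x, hx, hx'⟩
          refine Or.inl ((hI u v huv hvn').2 ?_)
          rcases hsup u hun x hx with h1 | ⟨h1, h1'⟩
          · rcases hsup v hvn' x hx' with h2 | ⟨h2, h2'⟩
            · exact ⟨x, h1, h2⟩
            · rw [h2] at h1
              exact absurd h1 (hNS u hun)
          · rcases hsup v hvn' x hx' with h2 | ⟨h2, h2'⟩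
            · rw [h1] at h2
              exact absurd h2 (hNS v hvn')
            · exact ⟨ν, hνS u h1', hνS v h2'⟩

theorem proof_PGT : Pool.Agent.W312.TP.PGT := by
  intro n N E e hB G hG
  obtain ⟨hN, π, S, hπ, hS, -, hI⟩ := main hB
  let r : Fin N := ⟨0, hN⟩
  have hr : ∀ x : Fin N, x = r ↔ (x : ℕ) = 0 := fun x => Fin.ext_iff
  let pr : Fin N → Fin N := fun x => if hx : (x : ℕ) = 0 then r else
    ⟨π x, (hπ x (Nat.pos_of_ne_zero hx) x.2).trans x.2⟩
  have hpr : ∀ x : Fin N, (x : ℕ) ≠ 0 → ((pr x : Fin N) : ℕ) = π x := by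
    intro x hx
    simp only [pr, dif_neg hx]
  have hl : ∀ x : Fin N, (x : ℕ) ≠ 0 → ((pr x : Fin N) : ℕ) < x := by
    intro x hx
    rw [hpr x hx]
    exact hπ x (Nat.pos_of_ne_zero hx) x.2
  have hT := isTree_of_parent r pr (fun x => (x : ℕ)) (fun x hx => hl x (fun e => hx ((hr x).2 e)))
  set T := SimpleGraph.fromRel fun x y : Fin N => x ≠ r ∧ y = pr x with hTdef
  have hadj : ∀ x : Fin N, (x : ℕ) ≠ 0 → T.Adj x (pr x) := by
    intro x hx
    rw [hTdef, SimpleGraph.fromRel_adj]
    refine ⟨fun e => ?_, Or.inl ⟨fun e => hx ((hr x).1 e), rfl⟩⟩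
    have h1 := hl x hx
    rw [← e] at h1
    omega
  have hH : ∀ x y : Fin N, PA π x y → T.Adj x y := by
    rintro x y (⟨h1, h2⟩ | ⟨h1, h2⟩)
    · have h3 : y = pr x := Fin.ext (by rw [h2, hpr x h1])
      rw [h3]
      exact hadj x h1
    · have h3 : x = pr y := Fin.ext (by rw [h2, hpr y h1])
      rw [h3]
      exact (hadj y h1).symm
  have hP : ∀ v : Fin n, ∃ P : T.Path ⟨e v false, (hS v v.2).2 _ (hS v v.2).1.mem.1⟩
      ⟨e v true, (hS v v.2).2 _ (hS v v.2).1.mem.2⟩,
      ∀ x : Fin N, x ∈ P.1.support ↔ (x : ℕ) ∈ S v := fun v =>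
    (hS v v.2).1.path hH (hS v v.2).2 _ _ rfl rfl
  choose P hP using hP
  have key : ∀ u v : Fin n, u < v →
      (G.Adj u v ↔ ∃ x, x ∈ (P u).1.support ∧ x ∈ (P v).1.support) := by
    intro u v huv
    rw [hG u v huv, hI u v huv v.2]
    constructor
    · rintro ⟨x, hx, hx'⟩
      exact ⟨⟨x, (hS u u.2).2 x hx⟩, (hP u _).2 hx, (hP v _).2 hx'⟩
    · rintro ⟨x, hx, hx'⟩
      exact ⟨x, (hP u x).1 hx, (hP v x).1 hx'⟩
  refine ⟨N, T, hT, _, _, P, fun u v huv => ?_⟩
  rcases lt_or_gt_of_ne huv with h | h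
  · exact key u v h
  · rw [G.adj_comm, key v u h]
    exact ⟨fun ⟨x, h1, h2⟩ => ⟨x, h2, h1⟩, fun ⟨x, h1, h2⟩ => ⟨x, h2, h1⟩⟩

end Pool.Agent.W557.TP
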